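import Pool.Agent.MargS.Dil
import Pool.Agent.MargE.EqDefs

/-!
# Margulis' question for the times `[s n ^ α]`, all `α`, all generic points, almost every `s`

`G` is a locally compact Hausdorff group, `Γ` a discrete subgroup, `μ` a probability measure on
`G ⧸ Γ` and `x` a point whose integer-time orbit `u(1) x, u(2) x, …` is equidistributed with
respect to `μ`. (For a Lie group `G`, a lattice `Γ`, the invariant probability measure `μ` and an
Ad-unipotent one-parameter group `u`, this is equivalent to the density of the integer-time orbit,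
by a theorem of Ratner.) Let `α ≥ 1` be real. Then the set of the `s > 0` for which
`u([s n ^ α]) x`, `n = 1, 2, …`, is not equidistributed has Hausdorff dimension at most
`σ(α) < 1`, where `σ(α)` depends only on `α`. Margulis' question is the case `s = 1`.
-/

open MeasureTheory
open scoped NNReal

namespace Pool.Agent.Results.MP_4ace04_an.DilatedTimes

theorem result (α : ℝ) (hα : 1 ≤ α) : ∃ σ : ℝ≥0, σ < 1 ∧
    ∀ {G : Type*} [Group G] [TopologicalSpace G] [IsTopologicalGroup G] [T2Space G]
      [LocallyCompactSpace G] (Γ : Subgroup G) [DiscreteTopology Γ]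
      [SecondCountableTopology (G ⧸ Γ)] [MeasurableSpace (G ⧸ Γ)] [BorelSpace (G ⧸ Γ)]
      (μ : Measure (G ⧸ Γ)) [IsProbabilityMeasure μ] (u : ℝ → G) (x : G ⧸ Γ),
      (MargE.EquiSeq μ fun n : ℕ => u (n : ℝ) • x) →
      dimH {s : ℝ | 0 < s ∧
        ¬ MargE.EquiSeq μ fun n : ℕ => u ((⌊s * (n : ℝ) ^ α⌋ : ℤ) : ℝ) • x} ≤ σ :=
  MargS.homogeneous_dil hα

end Pool.Agent.Results.MP_4ace04_an.DilatedTimes
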