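import Pool.Agent.Marg.Dim

/-!
# Margulis' question on `u([n ^ α]) x` outside a set of exponents of dimension less than one

`G` is a locally compact Hausdorff group, `Γ` a discrete subgroup, `μ` a probability measure on
`G ⧸ Γ` and `x` a point whose integer-time orbit `u(1) x, u(2) x, …` is equidistributed with
respect to `μ`. (For a Lie group `G`, a lattice `Γ`, the invariant probability measure `μ`
and an Ad-unipotent one-parameter group `u`, this is equivalent to the density of the integer-time
orbit, by a theorem of Ratner.) Then for every `A` the set of exponents `α ∈ (1, A]` for which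
`u([n ^ α]) x` is not equidistributed with respect to `μ` has Hausdorff dimension at most
`σ(A) < 1`, where `σ(A)` depends only on `A`. In particular the set of exceptional exponents is
a Lebesgue null set.
-/

open MeasureTheory
open scoped NNReal

namespace Pool.Agent.Results.MP_4ace04_an.ExceptionalDimension

theorem result (A : ℝ) : ∃ σ : ℝ≥0, σ < 1 ∧
    ∀ {G : Type*} [Group G] [TopologicalSpace G] [IsTopologicalGroup G] [T2Space G]
      [LocallyCompactSpace G] (Γ : Subgroup G) [DiscreteTopology Γ]
      [SecondCountableTopology (G ⧸ Γ)] [MeasurableSpace (G ⧸ Γ)] [BorelSpace (G ⧸ Γ)]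
      (μ : Measure (G ⧸ Γ)) [IsProbabilityMeasure μ] (u : ℝ → G) (x : G ⧸ Γ),
      (Marg.Equidistributed μ fun n : ℕ => u (n : ℝ) • x) →
      dimH {α : ℝ | 1 < α ∧ α ≤ A ∧
        ¬ Marg.Equidistributed μ fun n : ℕ => u ((⌊(n : ℝ) ^ α⌋ : ℤ) : ℝ) • x} ≤ σ :=
  Marg.homogeneous_dim A

end Pool.Agent.Results.MP_4ace04_an.ExceptionalDimension
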