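import Pool.Agent.MargE.Orbit
import Pool.Agent.MargE.EqDefs

/-!
# Margulis' question on `u([n ^ α]) x` for every given `α`

`G` is a locally compact Hausdorff group, `Γ` a discrete subgroup, `μ` a probability measure on
`G ⧸ Γ`, `u` a one-parameter subgroup of `G` and `x` a point whose orbit `u(t) x`, `t ≥ 0`, is
equidistributed with respect to `μ`. (For a Lie group `G`, a lattice `Γ`, the invariant
probability measure `μ` and an Ad-unipotent one-parameter group `u` with dense orbit `u(ℝ) x` this
holds by a theorem of Ratner.) Let `α ≥ 1` be real. There is `σ(α) < 1`, depending only on `α`,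
such that

* the set of the speeds `s > 0` for which `u(s [n ^ α]) x`, `n = 1, 2, …`, is not equidistributed
  has Hausdorff dimension at most `σ(α)`;
* if `a(r)`, `r ∈ ℝ`, are elements of `G` which preserve `μ` and satisfy
  `a(r) u(t) a(r)⁻¹ = u(e ^ r t)` (for `SL(2, ℝ)` and the horocycle flow: the geodesic flow), then
  the set of the `r` for which `u([n ^ α]) a(r) x`, `n = 1, 2, …`, is not equidistributed has
  Hausdorff dimension at most `σ(α)`. So Margulis' question has the answer yes for the exponent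
  `α` and all points `a(r) x`, `r` outside a set of dimension less than one.
-/

open MeasureTheory
open scoped NNReal

namespace Pool.Agent.Results.MP_4ace04_an.FloorTimes

theorem result (α : ℝ) (hα : 1 ≤ α) : ∃ σ : ℝ≥0, σ < 1 ∧
    ∀ {G : Type*} [Group G] [TopologicalSpace G] [IsTopologicalGroup G] [T2Space G]
      [LocallyCompactSpace G] (Γ : Subgroup G) [DiscreteTopology Γ]
      [SecondCountableTopology (G ⧸ Γ)] [MeasurableSpace (G ⧸ Γ)] [BorelSpace (G ⧸ Γ)]
      (μ : Measure (G ⧸ Γ)) [IsProbabilityMeasure μ] (u : ℝ → G) (x : G ⧸ Γ),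
      Continuous u → (∀ s t, u (s + t) = u s * u t) →
      (MargE.EquiReal μ fun t : ℝ => u t • x) →
      dimH {s : ℝ | 0 < s ∧
        ¬ MargE.EquiSeq μ fun n : ℕ => u (s * (⌊(n : ℝ) ^ α⌋₊ : ℝ)) • x} ≤ σ ∧
      ∀ a : ℝ → G, (∀ r t, a r * u t * (a r)⁻¹ = u (Real.exp r * t)) →
        (∀ r, μ.map (fun p => a r • p) = μ) →
        dimH {r : ℝ | ¬ MargE.EquiSeq μ fun n : ℕ =>
          u (⌊(n : ℝ) ^ α⌋₊ : ℝ) • a r • x} ≤ σ :=
  MargE.homogeneous_floor_orbit hα

end Pool.Agent.Results.MP_4ace04_an.FloorTimes
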